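import Pool.Agent.Lib_helper45.TM32.Z3

/-!
# TM32, block U1: invariance of the symbol under `i` and `ε²` (helper45)
-/

set_option autoImplicit false

namespace Pool.Agent.TM32

open Zsqrtd

namespace Z45

theorem op_square {P : Zs} (hP : Op P) : (P * P).re % 8 = 1 ∧ (P * P).im % 4 = 0 := by
  obtain ⟨h1, h2⟩ := hP
  obtain ⟨u, hu⟩ : ∃ u, P.re = 2 * u + 1 := ⟨P.re / 2, by omega⟩
  obtain ⟨v, hv⟩ : ∃ v, P.im = 2 * v := ⟨P.im / 2, by omega⟩
  have hu2 : u * u % 2 = u % 2 := by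
    rcases Int.even_or_odd' u with ⟨t, ht | ht⟩
    · rw [ht]; ring_nf; omega
    · rw [ht]; ring_nf; omega
  refine ⟨?_, ?_⟩
  · rw [Zsqrtd.re_mul P, hu, hv]
    ring_nf
    ring_nf at hu2
    omega
  · rw [Zsqrtd.im_mul P, hu, hv]
    ring_nf
    omega

theorem cop_unit {w u u' : Z8} (h : u * u' = 1) (hc : IsCoprime w.re w.im) :
    IsCoprime (w * u).re (w * u).im := by
  have h1 : w = (w * u) * u' := by rw [mul_assoc, h, mul_one]
  have h2 := congrArg QuadraticAlgebra.re h1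
  have h3 := congrArg QuadraticAlgebra.im h1
  rw [QuadraticAlgebra.re_mul (w * u)] at h2
  rw [QuadraticAlgebra.im_mul (w * u)] at h3
  rw [h2, h3] at hc
  have e : IsCoprime ((w * u).re * u'.re + (w * u).im * u'.im)
      ((w * u).re * u'.im + (w * u).im * u'.re + sq * ((w * u).im * u'.im)) := by
    rw [one_mul, mul_assoc sq] at hc
    exact hc
  exact (cop_factor e).1

theorem Sp_zero {w : Z8} (hw : Wp w) (h : ¬ IsCoprime w.re w.im) : Sp w = 0 := by
  unfold Sp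
  apply qs_zero (op_odd hw.1)
  intro h1
  apply h
  rw [bh_spec hw.2]
  exact ((cop_sq (op_odd hw.1)).mul_right h1.symm)

/-- multiplication by a unit of norm one: the symbol -/
theorem unit_Sp {w u u' : Z8} (hw : Wp w) (hu : Wp u) (huu : u * u' = 1)
    (hn : (QuadraticAlgebra.norm u : Zs) = 1) (hh : hil (Bh w) ((w * u).re * w.re * u.re) = 1) :
    Sp (w * u) = Sp w * Sp u := by
  by_cases hc : IsCoprime w.re w.im
  · rw [Sp_mul hw hu (cop_unit huu hc), hh, mul_one]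
    unfold T
    rw [hn, qs_one_right, mul_one]
  · have h1 : ¬ IsCoprime (w * u).re (w * u).im := by
      intro h2
      have h3 := cop_unit (w := w * u) (u := u') (u' := u) (by rw [mul_comm]; exact huu) h2
      rw [mul_assoc, huu, mul_one] at h3
      exact hc h3
    rw [Sp_zero hw hc, Sp_zero (wp_mul hw hu).1 h1, zero_mul]

theorem zet2 : zet ^ 2 = (⟨1, sq⟩ : Z8) := by
  rw [pow_two]
  apply QuadraticAlgebra.ext
  · rw [QuadraticAlgebra.re_mul]
    simp
  · rw [QuadraticAlgebra.im_mul]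
    simp

theorem eps2 : eps ^ 2 = (⟨⟨3, -2⟩, ⟨4, 0⟩⟩ : Z8) := by
  rw [pow_two]
  apply QuadraticAlgebra.ext
  · rw [QuadraticAlgebra.re_mul]
    ext <;> simp
  · rw [QuadraticAlgebra.im_mul]
    ext <;> simp

end Z45

open Z45 in
theorem St_i {w : Z8} (hw : W w) : W (zet ^ 2 * w) ∧ St (zet ^ 2 * w) = St w := by
  obtain ⟨hop, h4⟩ := hw
  have hwp : Wp w := ⟨hop, by omega⟩
  rw [mul_comm, zet2]
  set u : Z8 := ⟨1, sq⟩ with hu
  have hub : Bh u = 1 := by
    unfold Bh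
    ext <;> simp [hu]
  have hure : u.re = 1 := rfl
  have huw : Wp u := by
    refine ⟨⟨?_, ?_⟩, ?_⟩ <;> simp [hu]
  obtain ⟨m1, m2, m3⟩ := wp_mul hwp huw
  rw [hub, hure] at m2 m3
  have e2 : (w * u).re = w.re - 2 * Bh w := by rw [m2]; ring
  have e3 : Bh (w * u) = w.re - Bh w := by rw [m3]; ring
  obtain ⟨a1, a2⟩ := hop
  have hBre : (Bh w).re = w.im.im := rfl
  have hBim : (Bh w).im = -(w.im.re / 2) := rfl
  have ht : (Bh w).im % 2 = 0 := by rw [hBim]; omega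
  have hre : (w * u).re.re = w.re.re - 2 * (Bh w).re := by
    rw [e2, Zsqrtd.re_sub, Zsqrtd.re_mul 2, Zsqrtd.re_ofNat, Zsqrtd.im_ofNat]
    push_cast
    ring
  have him : (w * u).re.im = w.re.im - 2 * (Bh w).im := by
    rw [e2, Zsqrtd.im_sub, Zsqrtd.im_mul 2, Zsqrtd.re_ofNat, Zsqrtd.im_ofNat]
    push_cast
    ring
  have hb1 : (w * u).im.im = w.re.re - (Bh w).re := by
    have h1 := congrArg Zsqrtd.re e3
    rw [Zsqrtd.re_sub] at h1
    exact h1
  have hb2 : (Bh (w * u)).im = w.re.im - (Bh w).im := by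
    rw [e3, Zsqrtd.im_sub]
  have hW : W (w * u) := by
    refine ⟨m1.1, ?_⟩
    have h1 : (Bh (w * u)).im = -((w * u).im.re / 2) := rfl
    have h2 := m1.2
    omega
  refine ⟨hW, ?_⟩
  have r1 : (1 : Z8).re = 1 := rfl
  have i1 : (1 : Z8).im = 0 := rfl
  have huu : u * (-u) = 1 := by
    apply QuadraticAlgebra.ext
    · rw [QuadraticAlgebra.re_mul, r1]
      ext <;> simp [hu]
    · rw [QuadraticAlgebra.im_mul, i1]
      ext <;> simp [hu]
  have hn : (QuadraticAlgebra.norm u : Zs) = 1 := by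
    rw [norm_form huw, hub, hure]
    ring
  have hh : hil (Bh w) ((w * u).re * w.re * u.re) = 1 := by
    have hz : (w * u).re * w.re * u.re = w.re * w.re - 2 * (Bh w * w.re) := by
      rw [hure, e2]
      ring
    obtain ⟨s1, s2⟩ := op_square (P := w.re) ⟨a1, a2⟩
    have z1 : ((w * u).re * w.re * u.re).re = (w.re * w.re).re -
        2 * ((Bh w).re * w.re.re - 2 * (Bh w).im * w.re.im) := by
      rw [hz, Zsqrtd.re_sub, Zsqrtd.re_mul 2, Zsqrtd.re_mul (Bh w), Zsqrtd.re_ofNat,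
        Zsqrtd.im_ofNat]
      push_cast
      ring
    have z2 : ((w * u).re * w.re * u.re).im = (w.re * w.re).im -
        2 * ((Bh w).re * w.re.im + (Bh w).im * w.re.re) := by
      rw [hz, Zsqrtd.im_sub, Zsqrtd.im_mul 2, Zsqrtd.im_mul (Bh w), Zsqrtd.re_ofNat,
        Zsqrtd.im_ofNat]
      push_cast
      ring
    obtain ⟨t, ht'⟩ : ∃ t, (Bh w).im = 2 * t := ⟨(Bh w).im / 2, by omega⟩
    obtain ⟨v, hv⟩ : ∃ v, w.re.im = 2 * v := ⟨w.re.im / 2, by omega⟩
    by_cases c1 : (Bh w).re % 2 = 1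
    · unfold hil
      rw [if_pos c1]
      unfold m4
      rw [if_neg (by omega)]
    · obtain ⟨r, hr⟩ : ∃ r, (Bh w).re = 2 * r := ⟨(Bh w).re / 2, by omega⟩
      have c2 : (((w * u).re * w.re * u.re).re + ((w * u).re * w.re * u.re).im) % 4 = 1 := by
        rw [z1, z2, ht', hr, hv]
        have : 2 * (2 * r * w.re.re - 2 * (2 * t) * (2 * v)) =
          4 * (r * w.re.re) - 16 * (t * v) := by ring
        have h3 : 2 * (2 * r * (2 * v) + 2 * t * w.re.re) = 8 * (r * v) + 4 * (t * w.re.re) := by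
          ring
        rw [this, h3]
        omega
      have c3 : ∀ c, m4 ((w * u).re * w.re * u.re) c = 1 := by
        intro c
        unfold m4
        rw [if_neg (by omega)]
      unfold hil
      rw [if_neg c1, if_neg (by omega), c3, c3]
      by_cases c4 : (Bh w).re % 4 = 2
      · rw [if_pos c4]
      · rw [if_neg c4]
        obtain ⟨r', hr'⟩ : ∃ r', (Bh w).re = 4 * r' := ⟨(Bh w).re / 4, by omega⟩
        have c5 : ((w * u).re * w.re * u.re).re % 8 = 1 := by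
          rw [z1, ht', hr', hv]
          have : 2 * (4 * r' * w.re.re - 2 * (2 * t) * (2 * v)) =
            8 * (r' * w.re.re) - 16 * (t * v) := by ring
          rw [this]
          omega
        have c6 : m8 ((w * u).re * w.re * u.re).re = 1 := by
          unfold m8
          rw [if_pos (Or.inl c5)]
        rw [c6]
        split_ifs <;> rfl
  have hSp := unit_Sp hwp huw huu hn hh
  have hSu : Sp u = 1 := by
    unfold Sp
    rw [hure, qs_one_right]
  rw [hSu, mul_one] at hSp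
  rw [St_eq m1, St_eq hwp, hSp, him, hre, hb1]
  have g1 : (w.re.im - 2 * (Bh w).im) % 4 = w.re.im % 4 := by omega
  have g2 : (w.re.re - 2 * (Bh w).re - (w.re.re - (Bh w).re)) ^ 2 +
      (w.re.re - (Bh w).re) ^ 2 = (w.re.re - w.im.im) ^ 2 + w.im.im ^ 2 := by
    rw [hBre]
    ring
  rw [g1, g2]

open Z45 in
theorem St_eps {w : Z8} (hw : W w) : W (eps ^ 2 * w) ∧ St (eps ^ 2 * w) = St w := by
  obtain ⟨hop, h4⟩ := hw
  have hwp : Wp w := ⟨hop, by omega⟩
  rw [mul_comm, eps2]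
  set u : Z8 := ⟨⟨3, -2⟩, ⟨4, 0⟩⟩ with hu
  have hub : Bh u = ⟨0, -2⟩ := by
    unfold Bh
    ext <;> simp [hu]
  have hure : u.re = ⟨3, -2⟩ := rfl
  have huw : Wp u := by
    refine ⟨⟨?_, ?_⟩, ?_⟩ <;> simp [hu]
  obtain ⟨m1, m2, m3⟩ := wp_mul hwp huw
  rw [hub, hure] at m2 m3
  obtain ⟨a1, a2⟩ := hop
  have hBre : (Bh w).re = w.im.im := rfl
  have hBim : (Bh w).im = -(w.im.re / 2) := rfl
  obtain ⟨t, ht'⟩ : ∃ t, (Bh w).im = 2 * t := ⟨(Bh w).im / 2, by omega⟩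
  obtain ⟨v, hv⟩ : ∃ v, w.re.im = 2 * v := ⟨w.re.im / 2, by omega⟩
  have hre : (w * u).re.re = 3 * w.re.re + 4 * w.re.im - 8 * (Bh w).im := by
    rw [m2, Zsqrtd.re_sub, Zsqrtd.re_mul 2, Zsqrtd.re_ofNat, Zsqrtd.im_ofNat, Zsqrtd.re_mul,
      Zsqrtd.re_mul]
    push_cast
    ring
  have him : (w * u).re.im = 3 * w.re.im - 2 * w.re.re + 4 * (Bh w).re := by
    rw [m2, Zsqrtd.im_sub, Zsqrtd.im_mul 2, Zsqrtd.re_ofNat, Zsqrtd.im_ofNat, Zsqrtd.im_mul,
      Zsqrtd.im_mul]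
    push_cast
    ring
  have hb1 : (w * u).im.im = 4 * w.re.im + 3 * (Bh w).re - 4 * (Bh w).im := by
    have h1 : (Bh (w * u)).re = (w * u).im.im := rfl
    rw [← h1, m3, Zsqrtd.re_sub, Zsqrtd.re_add, Zsqrtd.re_mul 2, Zsqrtd.re_ofNat,
      Zsqrtd.im_ofNat, Zsqrtd.re_mul, Zsqrtd.re_mul, Zsqrtd.re_mul]
    push_cast
    ring
  have hb2 : (Bh (w * u)).im = -2 * w.re.re + 3 * (Bh w).im + 2 * (Bh w).re := by
    rw [m3, Zsqrtd.im_sub, Zsqrtd.im_add, Zsqrtd.im_mul 2, Zsqrtd.re_ofNat,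
      Zsqrtd.im_ofNat, Zsqrtd.im_mul, Zsqrtd.im_mul, Zsqrtd.im_mul]
    push_cast
    ring
  have hW : W (w * u) := by
    refine ⟨m1.1, ?_⟩
    have h1 : (Bh (w * u)).im = -((w * u).im.re / 2) := rfl
    have h2 := m1.2
    omega
  refine ⟨hW, ?_⟩
  have r1 : (1 : Z8).re = 1 := rfl
  have i1 : (1 : Z8).im = 0 := rfl
  have huu : u * (⟨⟨3, 2⟩, ⟨-4, 0⟩⟩ : Z8) = 1 := by
    apply QuadraticAlgebra.ext
    · rw [QuadraticAlgebra.re_mul, r1]
      ext <;> simp [hu]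
    · rw [QuadraticAlgebra.im_mul, i1]
      ext <;> simp [hu]
  have hn : (QuadraticAlgebra.norm u : Zs) = 1 := by
    rw [norm_form huw, hub, hure]
    ext <;> simp
  have hC : Op (⟨3, -2⟩ : Zs) := by constructor <;> simp
  have hh : hil (Bh w) ((w * u).re * w.re * u.re) = 1 := by
    by_cases c1 : (Bh w).re % 2 = 1
    · unfold hil
      rw [if_pos c1]
      unfold m4
      rw [if_neg (by omega)]
    · obtain ⟨r, hr⟩ : ∃ r, (Bh w).re = 2 * r := ⟨(Bh w).re / 2, by omega⟩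
      have hP := op_mul (x := w.re) (y := ⟨3, -2⟩) ⟨a1, a2⟩ hC
      obtain ⟨s1, s2⟩ := op_square hP
      have hz : (w * u).re * w.re * u.re = (w.re * ⟨3, -2⟩) * (w.re * ⟨3, -2⟩) -
          2 * ((Bh w * ⟨0, -2⟩) * (w.re * ⟨3, -2⟩)) := by
        rw [hure, m2]
        ring
      have hbd : Bh w * ⟨0, -2⟩ = 4 * (⟨2 * t, -r⟩ : Zs) := by
        ext
        · rw [Zsqrtd.re_mul, Zsqrtd.re_mul 4, Zsqrtd.re_ofNat, Zsqrtd.im_ofNat, ht', hr]
          push_cast
          ring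
        · rw [Zsqrtd.im_mul, Zsqrtd.im_mul 4, Zsqrtd.re_ofNat, Zsqrtd.im_ofNat, ht', hr]
          push_cast
          ring
      have hz2 : (w * u).re * w.re * u.re = (w.re * ⟨3, -2⟩) * (w.re * ⟨3, -2⟩) -
          8 * ((⟨2 * t, -r⟩ : Zs) * (w.re * ⟨3, -2⟩)) := by
        rw [hz, hbd]
        ring
      have z1 : ((w * u).re * w.re * u.re).re % 8 = 1 := by
        rw [hz2, Zsqrtd.re_sub, Zsqrtd.re_mul 8, Zsqrtd.re_ofNat, Zsqrtd.im_ofNat]
        push_cast
        omega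
      have z2 : ((w * u).re * w.re * u.re).im % 4 = 0 := by
        rw [hz2, Zsqrtd.im_sub, Zsqrtd.im_mul 8, Zsqrtd.re_ofNat, Zsqrtd.im_ofNat]
        push_cast
        omega
      have c3 : ∀ c, m4 ((w * u).re * w.re * u.re) c = 1 := by
        intro c
        unfold m4
        rw [if_neg (by omega)]
      have c6 : m8 ((w * u).re * w.re * u.re).re = 1 := by
        unfold m8
        rw [if_pos (Or.inl z1)]
      unfold hil
      rw [if_neg c1, c3, c3, c3, c6]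
      split_ifs <;> rfl
  have hSp := unit_Sp hwp huw huu hn hh
  have hSu : Sp u = -1 := by
    unfold Sp
    rw [hub, hure, qs_prim _ (by simp [nv]) (by decide)]
    norm_num [nv]
  rw [hSu] at hSp
  rw [St_eq m1, St_eq hwp, hSp, him, hre, hb1]
  have g1 : (if (3 * w.re.im - 2 * w.re.re + 4 * (Bh w).re) % 4 = 0 then (1 : ℤ) else -1) =
      -(if w.re.im % 4 = 0 then (1 : ℤ) else -1) := by
    split_ifs <;> first | rfl | omega
  have g2 : m8 ((3 * w.re.re + 4 * w.re.im - 8 * (Bh w).im -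
      (4 * w.re.im + 3 * (Bh w).re - 4 * (Bh w).im)) ^ 2 +
      (4 * w.re.im + 3 * (Bh w).re - 4 * (Bh w).im) ^ 2) =
      m8 ((w.re.re - w.im.im) ^ 2 + w.im.im ^ 2) := by
    apply m8_congr
    rw [hv, ht', hBre]
    set x := w.re.re with hx
    set y := w.im.im with hy
    have e : (3 * x + 4 * (2 * v) - 8 * (2 * t) - (4 * (2 * v) + 3 * y - 4 * (2 * t))) ^ 2 +
      (4 * (2 * v) + 3 * y - 4 * (2 * t)) ^ 2 = ((x - y) ^ 2 + y ^ 2) +
      8 * ((x - y) ^ 2 + y ^ 2 - 6 * t * (x - y) + 8 * t ^ 2 + 6 * (v - t) * y +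
        8 * (v - t) ^ 2) := by ring
    rw [e]
    omega
  rw [g1, g2]
  ring

end Pool.Agent.TM32
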