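import Pool.Agent.Lib_helper51.TM32.NDefs

/-!
TM32, phase 2, block N3 (helper45): logarithmic derivative of a completely multiplicative
Dirichlet series.
-/

set_option autoImplicit false

namespace Pool.Agent.TM32

open Zsqrtd Filter Topology ArithmeticFunction

theorem N3_mul_conv (a : ℕ → ℂ) (hm : ∀ m n, m ≠ 0 → n ≠ 0 → a (m * n) = a m * a n)
    (f g : ℕ → ℂ) :
    LSeries.convolution (fun n => a n * f n) (fun n => a n * g n) =
      fun n => a n * LSeries.convolution f g n := by
  ext n
  simp only [LSeries.convolution_def, Finset.mul_sum]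
  refine Finset.sum_congr rfl fun p hp => ?_
  have h := Nat.mem_divisorsAntidiagonal.mp hp
  have h1 : p.1 ≠ 0 := by
    intro h0
    apply h.2
    rw [← h.1, h0, zero_mul]
  have h2 : p.2 ≠ 0 := by
    intro h0
    apply h.2
    rw [← h.1, h0, mul_zero]
  rw [← h.1, hm _ _ h1 h2]
  ring

theorem N3_one_mu : LSeries.convolution (1 : ℕ → ℂ)
    (fun n => ((ArithmeticFunction.moebius n : ℤ) : ℂ)) = LSeries.delta := by
  have h := DirichletCharacter.convolution_mul_moebius (1 : DirichletCharacter ℂ 1)
  rw [DirichletCharacter.modOne_eq_one, one_mul] at h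
  exact h

theorem N3_summable_mul {a f : ℕ → ℂ} (hb : ∀ n, ‖a n‖ ≤ 1) {s : ℂ}
    (h : LSeriesSummable f s) : LSeriesSummable (fun n => a n * f n) s := by
  refine .of_norm <| h.norm.of_nonneg_of_le (fun _ => norm_nonneg _) fun n =>
    LSeries.norm_term_le s ?_
  rw [_root_.norm_mul]
  exact mul_le_of_le_one_left (norm_nonneg (f n)) (hb n)

theorem cm_logderiv (a : ℕ → ℂ) (h0 : a 0 = 0) (h1 : a 1 = 1)
    (hm : ∀ m n, m ≠ 0 → n ≠ 0 → a (m * n) = a m * a n) (hb : ∀ n, ‖a n‖ ≤ 1) {s : ℂ}
    (hs : 1 < s.re) :
    LSeriesSummable a s ∧ LSeries a s ≠ 0 ∧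
      LSeriesSummable (fun n => a n * (vonMangoldt n : ℂ)) s ∧
      deriv (LSeries a) s = -(LSeries (fun n => a n * (vonMangoldt n : ℂ)) s * LSeries a s) := by
  have hsa : LSeriesSummable a s := LSeriesSummable_of_bounded_of_one_lt_re (fun n _ => hb n) hs
  have hmu : LSeriesSummable (fun n => a n * ((ArithmeticFunction.moebius n : ℤ) : ℂ)) s :=
    N3_summable_mul hb (ArithmeticFunction.LSeriesSummable_moebius_iff.mpr hs)
  have hL : LSeriesSummable (fun n => a n * (vonMangoldt n : ℂ)) s :=
    N3_summable_mul hb (ArithmeticFunction.LSeriesSummable_vonMangoldt hs)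
  refine ⟨hsa, ?_, hL, ?_⟩
  · have h2 : LSeries.convolution a (fun n => a n * ((ArithmeticFunction.moebius n : ℤ) : ℂ)) =
        LSeries.delta := by
      have h3 := N3_mul_conv a hm 1 (fun n => ((ArithmeticFunction.moebius n : ℤ) : ℂ))
      rw [N3_one_mu] at h3
      have h4 : (fun n => a n * (1 : ℕ → ℂ) n) = a := by
        funext n
        simp
      rw [h4] at h3
      rw [h3]
      funext n
      unfold LSeries.delta
      split_ifs with hn
      · rw [hn, h1, mul_one]
      · rw [mul_zero]
    have h5 := LSeries_convolution' hsa hmu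
    rw [h2, LSeries_delta] at h5
    intro h6
    rw [h6, zero_mul] at h5
    simp at h5
  · have habs : LSeries.abscissaOfAbsConv a < s.re := by
      refine lt_of_le_of_lt (LSeries.abscissaOfAbsConv_le_of_le_const ⟨1, fun n _ => hb n⟩) ?_
      exact_mod_cast hs
    have h2 : LSeries.convolution (fun n => a n * (vonMangoldt n : ℂ)) a =
        fun n => a n * Complex.log n := by
      have h3 := N3_mul_conv a hm (fun n => (vonMangoldt n : ℂ)) 1
      rw [ArithmeticFunction.convolution_vonMangoldt_const_one] at h3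
      have h4 : (fun n => a n * (1 : ℕ → ℂ) n) = a := by
        funext n
        simp
      rw [h4] at h3
      exact h3
    rw [← LSeries_convolution' hL hsa, LSeries_deriv habs, h2]
    congr 1
    refine LSeries_congr (fun _ => ?_) s
    simp [LSeries.logMul, mul_comm]

end Pool.Agent.TM32
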