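import Pool.Agent.Lib_helper51.TM32.Defs2
import Pool.Agent.Lib_helper33.TM32.Z2

/-!
# TM32, block Z3: the product formula (helper45)
-/

set_option autoImplicit false

namespace Pool.Agent.TM32

open Zsqrtd

namespace Z45

/-! ## norms and coprimality -/

theorem odd_iff (x : Zs) : x.norm % 2 = 1 ↔ x.re % 2 = 1 := by
  rw [nv]
  rcases Int.even_or_odd' x.re with ⟨k, hk | hk⟩
  · rw [hk]
    ring_nf
    omega
  · rw [hk]
    ring_nf
    omega

theorem op_odd {x : Zs} (h : Op x) : x.norm % 2 = 1 := (odd_iff x).2 h.1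

theorem op_mul {x y : Zs} (hx : Op x) (hy : Op y) : Op (x * y) := by
  obtain ⟨h1, h2⟩ := hx
  obtain ⟨h3, h4⟩ := hy
  obtain ⟨a, ha⟩ : ∃ a, x.re = 2 * a + 1 := ⟨x.re / 2, by omega⟩
  obtain ⟨b, hb⟩ : ∃ b, x.im = 2 * b := ⟨x.im / 2, by omega⟩
  obtain ⟨c, hc⟩ : ∃ c, y.re = 2 * c + 1 := ⟨y.re / 2, by omega⟩
  obtain ⟨d, hd⟩ : ∃ d, y.im = 2 * d := ⟨y.im / 2, by omega⟩
  refine ⟨?_, ?_⟩
  · rw [Zsqrtd.re_mul, ha, hb, hc, hd]
    ring_nf
    omega
  · rw [Zsqrtd.im_mul, ha, hb, hc, hd]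
    ring_nf
    omega

theorem odd_mul {x y : Zs} (hx : x.norm % 2 = 1) (hy : y.norm % 2 = 1) :
    (x * y).norm % 2 = 1 := by
  rw [Zsqrtd.norm_mul, Int.mul_emod, hx, hy]
  rfl

theorem odd_dvd {x y : Zs} (h : x ∣ y) (hy : y.norm % 2 = 1) : x.norm % 2 = 1 :=
  Z33.norm_odd_of_dvd h hy

theorem odd_ne {x : Zs} (hx : x.norm % 2 = 1) : x ≠ 0 := by
  rintro rfl
  simp at hx

theorem cop_two {x : Zs} (hx : x.norm % 2 = 1) : IsCoprime x (2 : Zs) := by
  refine ⟨star x, -((x.norm / 2 : ℤ) : Zs), ?_⟩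
  have h1 : ((x.norm : ℤ) : Zs) = x * star x := Zsqrtd.norm_eq_mul_conj x
  have h2 : x.norm = 2 * (x.norm / 2) + 1 := by omega
  have h3 : ((x.norm : ℤ) : Zs) = 2 * ((x.norm / 2 : ℤ) : Zs) + 1 := by
    conv_lhs => rw [h2]
    push_cast
    ring
  linear_combination h3 - h1

theorem two_eq : (2 : Zs) = sq * (-sq) := by
  ext <;> simp

theorem sq_sq : sq * sq = (-2 : Zs) := by
  ext <;> simp

theorem cop_sq {x : Zs} (hx : x.norm % 2 = 1) : IsCoprime x sq := by
  have h := cop_two hx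
  rw [two_eq] at h
  exact h.of_mul_right_left

/-! ## symbols -/

theorem pm_sq {u : ℤ} (h : u = 1 ∨ u = -1) : u * u = 1 := by
  rcases h with h | h <;> rw [h] <;> rfl

theorem qs_sqr {x y : Zs} (hy : y.norm % 2 = 1) (h : IsCoprime x y) : qs x y * qs x y = 1 :=
  pm_sq (qs_pm hy h)

theorem qs_one_right (x : Zs) : qs x 1 = 1 := by
  have h1 := qs_mul_right x (y := 1) (y' := 1) one_ne_zero one_ne_zero
  have h2 : (1 : Zs).norm % 2 = 1 := by simp
  have h3 := qs_pm (x := x) (y := 1) h2 isCoprime_one_right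
  rw [mul_one] at h1
  rcases h3 with h | h
  · exact h
  · rw [h] at h1
    norm_num at h1

theorem qs_one_left {y : Zs} (hy : y.norm % 2 = 1) : qs 1 y = 1 := by
  have h1 := qs_mul_left 1 1 hy
  have h3 := qs_pm (x := 1) (y := y) hy isCoprime_one_left
  rw [mul_one] at h1
  rcases h3 with h | h
  · exact h
  · rw [h] at h1
    norm_num at h1

theorem qs_mtwo {y : Zs} (hy : y.norm % 2 = 1) : qs (-2) y = 1 := by
  rw [← sq_sq, qs_mul_left _ _ hy, qs_sqr hy (cop_sq hy).symm]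

theorem qs_two {y : Zs} (hy : y.norm % 2 = 1) : qs 2 y = qs (-1) y := by
  have h : (2 : Zs) = (-1) * (-2) := by norm_num
  rw [h, qs_mul_left _ _ hy, qs_mtwo hy, mul_one]

theorem rho_pm (x y : Zs) : rho x y = 1 ∨ rho x y = -1 := by
  unfold rho
  split_ifs <;> simp

theorem rho_sqr (x y : Zs) : rho x y * rho x y = 1 := pm_sq (rho_pm x y)

theorem rho_op {x y : Zs} (hx : Op x) (hy : Op y) : rho x y = 1 := by
  unfold rho
  rw [if_pos hx.2, if_pos hy.2]

theorem rho_mul_right {x y y' : Zs} (hx : x.norm % 2 = 1) (hy : y.norm % 2 = 1)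
    (hy' : y'.norm % 2 = 1) : rho x (y * y') = rho x y * rho x y' := by
  rw [rho_comm, rho_mul_left hy hy' hx, rho_comm y, rho_comm y']

theorem m8_pm (a : ℤ) : m8 a = 1 ∨ m8 a = -1 := by
  unfold m8
  split_ifs <;> simp

theorem m4_pm (z : Zs) (c : ℤ) : m4 z c = 1 ∨ m4 z c = -1 := by
  unfold m4
  split_ifs <;> simp

theorem mul_pm {u v : ℤ} (hu : u = 1 ∨ u = -1) (hv : v = 1 ∨ v = -1) :
    u * v = 1 ∨ u * v = -1 := by
  rcases hu with rfl | rfl <;> rcases hv with rfl | rfl <;> simp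

theorem hil_pm (b z : Zs) : hil b z = 1 ∨ hil b z = -1 := by
  unfold hil
  split_ifs
  · exact m4_pm _ _
  · exact mul_pm (m8_pm _) (m4_pm _ _)
  · exact m4_pm _ _
  · exact mul_pm (m8_pm _) (m4_pm _ _)
  · exact Or.inl rfl

theorem qs_sq_op {w : Zs} (hw : Op w) : qs sq w = m8 w.re := by
  rw [qs_sq hw, Z33.jac_two _ hw.1]
  rfl

theorem m4_rho {w b : Zs} (hw : Op w) (c : ℤ) (hc : c % 2 = b.im % 2) : m4 w c = rho b w := by
  obtain ⟨h1, h2⟩ := hw
  unfold m4 rho
  rw [hc]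
  split_ifs <;> first | rfl | omega

/-- the table is right -/
theorem hil_eq {b w : Zs} (k : ℕ) (hb : b.norm % 2 = 1) (hw : Op w)
    (h4 : 4 ≤ k → w.re % 8 = 1 ∧ w.im % 4 = 0) :
    hil (sq ^ k * b) w = qs (sq ^ k) w * rho b w := by
  have hb0 : b.re % 2 = 1 := (odd_iff b).1 hb
  have hwo := op_odd hw
  obtain rfl | rfl | rfl | rfl | ⟨j, rfl⟩ : k = 0 ∨ k = 1 ∨ k = 2 ∨ k = 3 ∨ ∃ j, k = j + 4 := by
    rcases Nat.lt_or_ge k 4 with h | h
    · omega
    · exact Or.inr (Or.inr (Or.inr (Or.inr ⟨k - 4, by omega⟩)))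
  · rw [pow_zero, one_mul, qs_one_left hwo, one_mul]
    unfold hil
    rw [if_pos hb0]
    exact m4_rho hw _ rfl
  · have e : sq ^ 1 * b = ⟨-2 * b.im, b.re⟩ := by
      rw [pow_one]
      ext <;> simp
    rw [e, pow_one, qs_sq_op hw]
    unfold hil
    dsimp only
    rw [if_neg (by omega), if_pos hb0, m4_rho hw (b := b) _ (by omega)]
  · have e : sq ^ 2 * b = ⟨-2 * b.re, -2 * b.im⟩ := by
      rw [pow_two, sq_sq]
      ext <;> simp
    rw [e, pow_two, qs_mul_left _ _ hwo, qs_sqr hwo (cop_sq hwo).symm, one_mul]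
    unfold hil
    dsimp only
    rw [if_neg (by omega), if_neg (by omega), if_pos (by omega), m4_rho hw (b := b) _ (by omega)]
  · have e : sq ^ 3 * b = ⟨4 * b.im, -2 * b.re⟩ := by
      rw [pow_succ, pow_two, sq_sq]
      ext <;> simp
    rw [e, pow_succ, pow_two, qs_mul_left _ _ hwo, qs_mul_left _ _ hwo,
      qs_sqr hwo (cop_sq hwo).symm, one_mul, qs_sq_op hw]
    unfold hil
    dsimp only
    rw [if_neg (by omega), if_neg (by omega), if_neg (by omega), if_pos (by omega),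
      m4_rho hw (b := b) _ (by omega)]
  · obtain ⟨h5, h6⟩ := h4 (by omega)
    have e : sq ^ (j + 4) * b = ⟨4 * (sq ^ j * b).re, 4 * (sq ^ j * b).im⟩ := by
      have e1 : sq ^ (j + 4) * b = 4 * (sq ^ j * b) := by
        have e2 : sq ^ 4 = (4 : Zs) := by
          rw [show sq ^ 4 = (sq * sq) * (sq * sq) by ring, sq_sq]
          norm_num
        rw [pow_add, e2]
        ring
      rw [e1]
      ext
      · simp
      · simp
    have h7 : hil (sq ^ (j + 4) * b) w = 1 := by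
      rw [e]
      unfold hil
      dsimp only
      rw [if_neg (by omega), if_neg (by omega), if_neg (by omega), if_neg (by omega)]
    have h8 : qs (sq ^ (j + 4)) w = 1 := by
      have h9 : qs sq w = 1 := by
        rw [qs_sq_op hw]
        unfold m8
        rw [if_pos (by omega)]
      have h10 : ∀ n : ℕ, qs (sq ^ n) w = 1 := by
        intro n
        induction n with
        | zero => rw [pow_zero]; exact qs_one_left hwo
        | succ n ih => rw [pow_succ, qs_mul_left _ _ hwo, ih, h9, one_mul]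
      exact h10 _
    have h11 : rho b w = 1 := by
      rw [← m4_rho hw b.im rfl]
      unfold m4
      rw [if_neg (by omega)]
    rw [h7, h8, h11, one_mul]

theorem qs_sqpow_sqr {y : Zs} (hy : y.norm % 2 = 1) (k : ℕ) :
    qs (sq ^ k) y * qs (sq ^ k) y = 1 :=
  qs_sqr hy ((cop_sq hy).symm.pow_left)

/-- splitting off the powers of `s` -/
theorem split_sq {b : Zs} (hb : b ≠ 0) : ∃ (k : ℕ) (c : Zs), b = sq ^ k * c ∧ c.norm % 2 = 1 := by
  have key : ∀ (n : ℕ) (b : Zs), b ≠ 0 → b.norm.natAbs ≤ n →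
      ∃ (k : ℕ) (c : Zs), b = sq ^ k * c ∧ c.norm % 2 = 1 := by
    intro n
    induction n with
    | zero =>
      intro b hb h
      have := n_pos hb
      omega
    | succ n ih =>
      intro b hb h
      by_cases ho : b.norm % 2 = 1
      · exact ⟨0, b, by rw [pow_zero, one_mul], ho⟩
      · have h1 : b.re % 2 = 0 := by
          have := (odd_iff b).not.1 ho
          omega
        set c : Zs := ⟨b.im, -(b.re / 2)⟩ with hc
        have h2 : b = sq * c := by
          rw [hc]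
          ext
          · simp; omega
          · simp
        have hc0 : c ≠ 0 := by
          intro h3
          rw [h3, mul_zero] at h2
          exact hb h2
        have h3 : b.norm = 2 * c.norm := by
          rw [h2, Zsqrtd.norm_mul]
          congr 1
        have h4 := n_pos hc0
        obtain ⟨k, e, h5, h6⟩ := ih c hc0 (by omega)
        exact ⟨k + 1, e, by rw [h2, h5, pow_succ]; ring, h6⟩
  exact key _ b hb le_rfl

theorem cop_factor {A B C D : Zs} (h : IsCoprime (A * C + B * D) (A * D + B * C + sq * (B * D))) :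
    IsCoprime A B ∧ IsCoprime C D := by
  obtain ⟨u, v, e⟩ := h
  exact ⟨⟨u * C + v * D, u * D + v * C + v * sq * D, by linear_combination e⟩,
    ⟨u * A + v * B, u * B + v * A + v * sq * B, by linear_combination e⟩⟩

theorem cop_nu {A B C D : Zs} (h : IsCoprime (A * C + B * D) (A * D + B * C + sq * (B * D))) :
    IsCoprime (A * C + B * D) (C * C + sq * C * D - D * D) := by
  set P := A * C + B * D with hP
  set Q := A * D + B * C + sq * (B * D) with hQ
  have h1 : IsCoprime P (-(Q * Q) + P * (P + sq * Q)) := by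
    have h2 : IsCoprime P (-(Q * Q)) := (h.mul_right h).neg_right
    exact h2.add_mul_left_right _
  have h3 : -(Q * Q) + P * (P + sq * Q) =
      (A * A + sq * A * B - B * B) * (C * C + sq * C * D - D * D) := by
    rw [hP, hQ]
    ring
  rw [h3] at h1
  exact h1.of_mul_right_right

theorem exists_cop {b C : Zs} (hC : C ≠ 0) : ∃ g β γ : Zs, b = g * β ∧ C = g * γ ∧
    IsCoprime β γ := by
  obtain ⟨u, v, huv⟩ : ∃ u v, EuclideanDomain.gcd b C = b * u + C * v :=
    ⟨_, _, EuclideanDomain.gcd_eq_gcd_ab b C⟩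
  obtain ⟨β, hβ⟩ := EuclideanDomain.gcd_dvd_left b C
  obtain ⟨γ, hγ⟩ := EuclideanDomain.gcd_dvd_right b C
  generalize EuclideanDomain.gcd b C = g at huv hβ hγ
  have hg0 : g ≠ 0 := by
    intro h
    rw [h, zero_mul] at hγ
    exact hC hγ
  refine ⟨g, β, γ, hβ, hγ, ⟨u, v, ?_⟩⟩
  apply mul_left_cancel₀ hg0
  rw [hβ, hγ] at huv
  linear_combination -huv

/-- the sign for numerators divisible by 4 -/
theorem op_table {A C b d c : Zs} {k : ℕ} (hA : Op A) (hC : Op C) (hk : 4 ≤ k)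
    (hb : b = sq ^ k * c) : ((A * C - 2 * (b * d)) * A * C).re % 8 = 1 ∧
      ((A * C - 2 * (b * d)) * A * C).im % 4 = 0 := by
  obtain ⟨j, rfl⟩ : ∃ j, k = j + 4 := ⟨k - 4, by omega⟩
  have e1 : b = 4 * (sq ^ j * c) := by
    have e2 : sq ^ 4 = (4 : Zs) := by
      rw [show sq ^ 4 = (sq * sq) * (sq * sq) by ring, sq_sq]
      norm_num
    rw [hb, pow_add, e2]
    ring
  have hP := op_mul hA hC
  set P := A * C with hPP
  have e3 : (P - 2 * (b * d)) * A * C = P * P - 8 * ((sq ^ j * c) * d * P) := by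
    rw [e1, hPP]
    ring
  rw [e3]
  obtain ⟨h1, h2⟩ := hP
  obtain ⟨u, hu⟩ : ∃ u, P.re = 2 * u + 1 := ⟨P.re / 2, by omega⟩
  obtain ⟨v, hv⟩ : ∃ v, P.im = 2 * v := ⟨P.im / 2, by omega⟩
  have hu2 : u * u % 2 = u % 2 := by
    rcases Int.even_or_odd' u with ⟨t, ht | ht⟩
    · rw [ht]; ring_nf; omega
    · rw [ht]; ring_nf; omega
  refine ⟨?_, ?_⟩
  · rw [Zsqrtd.re_sub, Zsqrtd.re_mul 8, Zsqrtd.re_mul P, Zsqrtd.re_ofNat, Zsqrtd.im_ofNat, hu, hv]
    push_cast
    ring_nf
    ring_nf at hu2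
    omega
  · rw [Zsqrtd.im_sub, Zsqrtd.im_mul 8, Zsqrtd.im_mul P, Zsqrtd.re_ofNat, Zsqrtd.im_ofNat, hu, hv]
    push_cast
    ring_nf
    omega

/-- the product formula, `b ≠ 0` -/
theorem core {A C b d : Zs} (hA : Op A) (hC : Op C)
    (hcop : IsCoprime (A * C - 2 * (b * d)) (sq * (A * d + b * C - 2 * (b * d)))) (hb : b ≠ 0) :
    qs (A * d + b * C - 2 * (b * d)) (A * C - 2 * (b * d)) =
      qs b A * qs d C * qs (A * C - 2 * (b * d)) (C * C - 2 * (C * d) + 2 * (d * d)) *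
        hil b ((A * C - 2 * (b * d)) * A * C) := by
  have hAo := op_odd hA
  have hCo := op_odd hC
  -- coprimality
  have hf : IsCoprime (A * C + (sq * b) * (sq * d))
      (A * (sq * d) + (sq * b) * C + sq * ((sq * b) * (sq * d))) := by
    have e1 : A * C + (sq * b) * (sq * d) = A * C - 2 * (b * d) := by
      linear_combination b * d * sq_sq
    have e2 : A * (sq * d) + (sq * b) * C + sq * ((sq * b) * (sq * d)) =
        sq * (A * d + b * C - 2 * (b * d)) := by
      linear_combination sq * b * d * sq_sq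
    rw [e1, e2]
    exact hcop
  obtain ⟨cAB, cCD⟩ := cop_factor hf
  have cAb : IsCoprime A b := cAB.of_mul_right_right
  have cCd : IsCoprime C d := cCD.of_mul_right_right
  have cnu := cop_nu hf
  have enu : C * C + sq * C * (sq * d) - (sq * d) * (sq * d) =
      C * C - 2 * (C * d) + 2 * (d * d) := by
    linear_combination (C * d - d * d) * sq_sq
  rw [enu, show A * C + (sq * b) * (sq * d) = A * C - 2 * (b * d) by
    linear_combination b * d * sq_sq] at cnu
  -- the odd elements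
  have opA' : Op (A * C - 2 * (b * d)) := by
    have h1 := op_mul hA hC
    refine ⟨?_, ?_⟩
    · have := h1.1
      rw [Zsqrtd.re_sub, Zsqrtd.re_mul 2, Zsqrtd.re_ofNat, Zsqrtd.im_ofNat]
      push_cast
      omega
    · have := h1.2
      rw [Zsqrtd.im_sub, Zsqrtd.im_mul 2, Zsqrtd.re_ofNat, Zsqrtd.im_ofNat]
      push_cast
      omega
  have opnu : Op (C * C - 2 * (C * d) + 2 * (d * d)) := by
    have h1 := op_mul hC hC
    refine ⟨?_, ?_⟩
    · have := h1.1
      rw [Zsqrtd.re_add, Zsqrtd.re_sub, Zsqrtd.re_mul 2, Zsqrtd.re_mul 2, Zsqrtd.re_ofNat,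
        Zsqrtd.im_ofNat]
      push_cast
      omega
    · have := h1.2
      rw [Zsqrtd.im_add, Zsqrtd.im_sub, Zsqrtd.im_mul 2, Zsqrtd.im_mul 2, Zsqrtd.re_ofNat,
        Zsqrtd.im_ofNat]
      push_cast
      omega
  have hA'o := op_odd opA'
  have hnuo := op_odd opnu
  obtain ⟨g, β, γ, hbg, hCg, cβγ⟩ := exists_cop (b := b) (odd_ne hCo)
  set A2 := A * γ - 2 * (β * d) with hA2
  have hA'2 : A * C - 2 * (b * d) = g * A2 := by
    rw [hA2, hbg, hCg]
    ring
  have hgo : g.norm % 2 = 1 := odd_dvd ⟨γ, hCg⟩ hCo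
  have hγo : γ.norm % 2 = 1 := odd_dvd ⟨g, by rw [hCg]; ring⟩ hCo
  have hA2o : A2.norm % 2 = 1 := odd_dvd ⟨g, by rw [hA'2]; ring⟩ hA'o
  have cdg : IsCoprime d g := by
    rw [hCg] at cCd
    exact cCd.of_mul_left_left.symm
  have cdγ : IsCoprime d γ := by
    rw [hCg] at cCd
    exact cCd.of_mul_left_right.symm
  have cAg : IsCoprime A g := by
    rw [hbg] at cAb
    exact cAb.of_mul_right_left
  have cAβ : IsCoprime A β := by
    rw [hbg] at cAb
    exact cAb.of_mul_right_right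
  have c2γ := (cop_two hγo).symm
  -- (γ, A2) = 1
  have cγA2 : IsCoprime γ A2 := by
    have h1 : IsCoprime γ (-(2 * (β * d))) :=
      (c2γ.mul_left (cβγ.mul_left cdγ)).symm.neg_right
    have h2 := h1.add_mul_left_right A
    have e : -(2 * (β * d)) + γ * A = A2 := by rw [hA2]; ring
    rwa [e] at h2
  have cβA2 : IsCoprime β A2 := by
    have h1 : IsCoprime β (A * γ) := (cAβ.symm).mul_right cβγ
    have h2 := h1.add_mul_left_right (-(2 * d))
    have e : A * γ + β * -(2 * d) = A2 := by rw [hA2]; ring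
    rwa [e] at h2
  -- abbreviations
  set b' := A * d + b * C - 2 * (b * d) with hb'
  set nu := C * C - 2 * (C * d) + 2 * (d * d) with hnu
  have cnuA2 : IsCoprime nu A2 := by
    rw [hA'2] at cnu
    exact cnu.of_mul_left_right.symm
  have cnug : IsCoprime nu g := by
    rw [hA'2] at cnu
    exact cnu.of_mul_left_left.symm
  -- e1
  have e1 : qs b' (A * C - 2 * (b * d)) = qs b' g * qs b' A2 := by
    rw [hA'2, qs_mul_right _ (odd_ne hgo) (odd_ne hA2o)]
  -- e2
  have e2 : qs b' g = qs A g * qs d g := by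
    rw [← qs_mul_left _ _ hgo]
    apply qs_congr hgo
    refine ⟨β * C - 2 * (β * d), ?_⟩
    rw [hb', hbg]
    ring
  -- e3
  have e3 : qs γ A2 * qs b' A2 = qs β A2 * qs nu A2 := by
    rw [← qs_mul_left _ _ hA2o, ← qs_mul_left _ _ hA2o]
    apply qs_congr hA2o
    refine ⟨d, ?_⟩
    have h1 : C * b' = (A * C - 2 * (b * d)) * d + b * nu := by
      rw [hb', hnu]
      ring
    have hg0 := odd_ne hgo
    apply mul_left_cancel₀ hg0
    rw [hA'2] at h1
    calc g * (γ * b' - β * nu) = (g * γ) * b' - (g * β) * nu := by ring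
      _ = C * b' - b * nu := by rw [← hCg, ← hbg]
      _ = g * (A2 * d) := by rw [h1]; ring
  have s1 := qs_sqr hA2o cγA2
  -- e4
  have e4 : qs nu (A * C - 2 * (b * d)) * qs (A * C - 2 * (b * d)) nu = 1 := by
    rw [qs_recip hnuo hA'o cnu.symm, rho_op opnu opA']
  have e5 : qs nu (A * C - 2 * (b * d)) = qs nu g * qs nu A2 := by
    rw [hA'2, qs_mul_right _ (odd_ne hgo) (odd_ne hA2o)]
  have e6 : qs nu g = qs (-1) g := by
    have h1 : qs nu g = qs (2 * (d * d)) g := by
      apply qs_congr hgo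
      refine ⟨γ * (C - 2 * d), ?_⟩
      rw [hnu]
      calc C * C - 2 * (C * d) + 2 * (d * d) - 2 * (d * d) = C * (C - 2 * d) := by ring
        _ = (g * γ) * (C - 2 * d) := by rw [← hCg]
        _ = _ := by ring
    rw [h1, qs_mul_left _ _ hgo, qs_mul_left _ _ hgo, qs_sqr hgo cdg, mul_one, qs_two hgo]
  have e7 : qs γ A2 * qs A2 γ = rho γ A2 := qs_recip hγo hA2o cγA2
  have e8 : qs A2 γ = qs β γ * qs d γ := by
    have h1 : qs A2 γ = qs (-2 * (β * d)) γ := by
      apply qs_congr hγo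
      refine ⟨A, ?_⟩
      rw [hA2]
      ring
    rw [h1, qs_mul_left _ _ hγo, qs_mul_left _ _ hγo, qs_mtwo hγo, one_mul]
  -- the part of `s` in `β`
  have hβ0 : β ≠ 0 := by
    rintro rfl
    rw [mul_zero] at hbg
    exact hb hbg
  obtain ⟨k, β', hβ', hβ'o⟩ := split_sq hβ0
  set z := A2 * A * γ with hz
  have hzo : z.norm % 2 = 1 := odd_mul (odd_mul hA2o hAo) hγo
  have cβz : IsCoprime β z := (cβA2.mul_right cAβ.symm).mul_right cβγ
  have cβ'z : IsCoprime β' z := by
    rw [hβ'] at cβz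
    exact cβz.of_mul_left_right
  have e9 : qs β z = qs (sq ^ k) z * rho β' z := by
    have h1 : qs β z = qs (sq ^ k) z * qs β' z := by
      rw [hβ', qs_mul_left _ _ hzo]
    have h2 := qs_recip hβ'o hzo cβ'z
    have h3 : qs z β' = 1 := by
      have h4 : qs z β' = qs ((A * γ) * (A * γ)) β' := by
        apply qs_congr hβ'o
        refine ⟨-(2 * (sq ^ k * d) * (A * γ)), ?_⟩
        rw [hz, hA2, hβ']
        ring
      have h5 : IsCoprime (A * γ) β' := by
        have h6 : IsCoprime β (A * γ) := (cAβ.symm).mul_right cβγ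
        rw [hβ'] at h6
        exact h6.of_mul_left_right.symm
      rw [h4, qs_mul_left _ _ hβ'o, qs_sqr hβ'o h5]
    rw [h3, mul_one] at h2
    rw [h1, h2]
  have e9' : qs β z = qs β A2 * qs β A * qs β γ := by
    rw [hz, qs_mul_right _ (odd_ne (odd_mul hA2o hAo)) (odd_ne hγo),
      qs_mul_right _ (odd_ne hA2o) (odd_ne hAo)]
  have e10 : qs d C = qs d g * qs d γ := by
    conv_lhs => rw [hCg]
    rw [qs_mul_right _ (odd_ne hgo) (odd_ne hγo)]
  have e11 : qs b A = qs g A * qs β A := by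
    rw [hbg, qs_mul_left _ _ hAo]
  have e12 : qs A g * qs g A = rho A g := qs_recip hAo hgo cAg
  have sβA := qs_sqr hAo cAβ.symm
  have sβγ := qs_sqr hγo cβγ
  have sgA := qs_sqr hAo cAg.symm
  have snuA2 := qs_sqr hA2o cnuA2
  have snug := qs_sqr hgo cnug
  -- e13
  have hw : Op ((A * C - 2 * (b * d)) * A * C) := op_mul (op_mul opA' hA) hC
  have ew : (A * C - 2 * (b * d)) * A * C = g * g * z := by
    rw [hA'2, hz]
    calc g * A2 * A * C = g * A2 * A * (g * γ) := by rw [← hCg]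
      _ = _ := by ring
  have e13 : hil b ((A * C - 2 * (b * d)) * A * C) = qs (sq ^ k) z * rho β' z * rho g z := by
    have h1 : b = sq ^ k * (g * β') := by rw [hbg, hβ']; ring
    have h2 : hil b ((A * C - 2 * (b * d)) * A * C) =
        qs (sq ^ k) ((A * C - 2 * (b * d)) * A * C) *
          rho (g * β') ((A * C - 2 * (b * d)) * A * C) := by
      have h3 := hil_eq (b := g * β') (w := (A * C - 2 * (b * d)) * A * C) k
        (odd_mul hgo hβ'o) hw (fun hk => op_table hA hC hk h1)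
      rw [← h1] at h3
      exact h3
    rw [h2, ew, qs_mul_right _ (odd_ne (odd_mul hgo hgo)) (odd_ne hzo),
      qs_mul_right _ (odd_ne hgo) (odd_ne hgo), qs_sqpow_sqr hgo, one_mul,
      rho_mul_left hgo hβ'o (odd_mul (odd_mul hgo hgo) hzo),
      rho_mul_right hgo (odd_mul hgo hgo) hzo, rho_mul_right hgo hgo hgo, rho_sqr, one_mul,
      rho_mul_right hβ'o (odd_mul hgo hgo) hzo, rho_mul_right hβ'o hgo hgo, rho_sqr, one_mul]
    ring
  have e14 : rho g z = rho g A2 * rho g A * rho g γ := by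
    rw [hz, rho_mul_right hgo (odd_mul hA2o hAo) hγo, rho_mul_right hgo hA2o hAo]
  have e15 : rho (g * γ) (g * A2) = 1 := by
    rw [← hCg, ← hA'2]
    exact rho_op hC opA'
  rw [rho_mul_left hgo hγo (odd_mul hgo hA2o), rho_mul_right hgo hgo hA2o,
    rho_mul_right hγo hgo hA2o, rho_self hgo, ← qs_neg_one hgo] at e15
  have s2 := qs_sqr hγo cγA2.symm
  have sA'nu := qs_sqr hnuo cnu
  have srgA2 := rho_sqr g A2
  have srγg := rho_sqr γ g
  have t3 : qs b' A2 = qs γ A2 * (qs β A2 * qs nu A2) := by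
    linear_combination (qs γ A2) * e3 - (qs b' A2) * s1
  have t7 : qs γ A2 = rho γ A2 * (qs β γ * qs d γ) := by
    rw [← e8]
    linear_combination (qs A2 γ) * e7 - (qs γ A2) * s2
  have t9 : qs β A2 = (qs (sq ^ k) z * rho β' z) * (qs β A * qs β γ) := by
    rw [e9'] at e9
    linear_combination (qs β A * qs β γ) * e9 - (qs β A2 * qs β γ * qs β γ) * sβA -
      (qs β A2) * sβγ
  have t5 : qs nu A2 = qs (-1) g * qs (A * C - 2 * (b * d)) nu := by
    rw [e5] at e4
    rw [e6] at e4 snug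
    linear_combination (qs (-1) g * qs (A * C - 2 * (b * d)) nu) * e4 -
      (qs nu A2 * qs (A * C - 2 * (b * d)) nu * qs (A * C - 2 * (b * d)) nu) * snug -
      (qs nu A2) * sA'nu
  have t12 : qs A g = rho A g * qs g A := by
    linear_combination (qs g A) * e12 - (qs A g) * sgA
  have f1 : rho γ A2 * qs (-1) g = rho g A2 * rho γ g := by
    linear_combination (rho g A2 * rho γ g) * e15 -
      (qs (-1) g * rho γ A2 * rho γ g * rho γ g) * srgA2 - (qs (-1) g * rho γ A2) * srγg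
  rw [e1, e2, t3, t7, t9, t5, e10, e11, e13, e14, t12, rho_comm A g]
  rw [rho_comm γ g] at f1
  set K := qs g A * qs d g * qs d γ * (qs (sq ^ k) z * rho β' z) * qs β A *
    qs (A * C - 2 * (b * d)) nu with hK
  linear_combination (K * rho g A * qs β γ * qs β γ) * f1 +
    (K * rho g A * rho g A2 * rho g γ) * sβγ

/-- the case `Bh = 0` -/
theorem core0 {A C d : Zs} (hA : Op A) (hC : Op C) (hcop : IsCoprime (A * C) (sq * (A * d))) :
    qs (A * d) (A * C) = qs 0 A * qs d C * qs (A * C) (C * C - 2 * (C * d) + 2 * (d * d)) := by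
  have hAo := op_odd hA
  have hCo := op_odd hC
  have cA0 : IsUnit A := by
    have h1 : IsCoprime A A := hcop.of_mul_left_left.of_mul_right_right.of_mul_right_left
    exact isCoprime_self.1 h1
  have cCd : IsCoprime C d := hcop.of_mul_left_right.of_mul_right_right.of_mul_right_right
  have opnu : Op (C * C - 2 * (C * d) + 2 * (d * d)) := by
    have h1 := op_mul hC hC
    refine ⟨?_, ?_⟩
    · have := h1.1
      rw [Zsqrtd.re_add, Zsqrtd.re_sub, Zsqrtd.re_mul 2, Zsqrtd.re_mul 2, Zsqrtd.re_ofNat,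
        Zsqrtd.im_ofNat]
      push_cast
      omega
    · have := h1.2
      rw [Zsqrtd.im_add, Zsqrtd.im_sub, Zsqrtd.im_mul 2, Zsqrtd.im_mul 2, Zsqrtd.re_ofNat,
        Zsqrtd.im_ofNat]
      push_cast
      omega
  set nu := C * C - 2 * (C * d) + 2 * (d * d) with hnu
  have hnuo := op_odd opnu
  have hunit : ∀ {y : Zs}, Op y → qs A y = 1 := by
    intro y hy
    have hyo := op_odd hy
    have h1 : A = 1 ∨ A = -1 := Z33.unit_cases cA0
    rcases h1 with h | h
    · rw [h, qs_one_left hyo]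
    · rw [h, qs_neg_one hyo]
      exact rho_op (by constructor <;> simp) hy
  have h0A : ∀ x, qs x A = 1 := by
    intro x
    have h1 : Associated A 1 := associated_one_iff_isUnit.2 cA0
    rw [qs_assoc x h1, qs_one_right]
  have cCnu : IsCoprime C nu := by
    have h1 : IsCoprime C (2 * (d * d)) := (cop_two hCo).mul_right (cCd.mul_right cCd)
    have h2 := h1.add_mul_left_right (C - 2 * d)
    have e : 2 * (d * d) + C * (C - 2 * d) = nu := by rw [hnu]; ring
    rwa [e] at h2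
  have hCnu : qs C nu = 1 := by
    have h1 := qs_recip hCo hnuo cCnu
    rw [rho_op hC opnu] at h1
    have h2 : qs nu C = 1 := by
      have h3 : qs nu C = qs (2 * (d * d)) C := by
        apply qs_congr hCo
        refine ⟨C - 2 * d, ?_⟩
        rw [hnu]
        ring
      rw [h3, qs_mul_left _ _ hCo, qs_mul_left _ _ hCo, qs_sqr hCo cCd.symm, mul_one,
        qs_two hCo, qs_neg_one hCo]
      exact rho_op (by constructor <;> simp) hC
    rw [h2, mul_one] at h1
    exact h1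
  rw [qs_mul_right _ (odd_ne hAo) (odd_ne hCo), h0A, h0A, one_mul, one_mul, qs_mul_left _ _ hCo,
    hunit hC, one_mul, qs_mul_left _ _ hnuo, hunit opnu, hCnu, mul_one, mul_one]

theorem bh_spec {w : Z8} (h : w.im.re % 2 = 0) : w.im = sq * Bh w := by
  unfold Bh
  ext
  · simp
    omega
  · simp

theorem cancel_sq {x y : Zs} (h : sq * x = sq * y) : x = y := by
  have h0 : (sq : Zs) ≠ 0 := by
    intro h1
    have := congrArg Zsqrtd.im h1
    simp at this
  exact mul_left_cancel₀ h0 h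

theorem wp_mul {x y : Z8} (hx : Wp x) (hy : Wp y) :
    Wp (x * y) ∧ (x * y).re = x.re * y.re - 2 * (Bh x * Bh y) ∧
      Bh (x * y) = x.re * Bh y + Bh x * y.re - 2 * (Bh x * Bh y) := by
  have hx2 := bh_spec hx.2
  have hy2 := bh_spec hy.2
  have h1 : (x * y).re = x.re * y.re - 2 * (Bh x * Bh y) := by
    rw [QuadraticAlgebra.re_mul, hx2, hy2]
    linear_combination (Bh x * Bh y) * sq_sq
  have h2 : (x * y).im = sq * (x.re * Bh y + Bh x * y.re - 2 * (Bh x * Bh y)) := by
    rw [QuadraticAlgebra.im_mul, hx2, hy2]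
    linear_combination (sq * (Bh x * Bh y)) * sq_sq
  have h3 : Op (x * y).re := by
    rw [h1]
    have h1 := op_mul hx.1 hy.1
    refine ⟨?_, ?_⟩
    · have := h1.1
      rw [Zsqrtd.re_sub, Zsqrtd.re_mul 2, Zsqrtd.re_ofNat, Zsqrtd.im_ofNat]
      push_cast
      omega
    · have := h1.2
      rw [Zsqrtd.im_sub, Zsqrtd.im_mul 2, Zsqrtd.re_ofNat, Zsqrtd.im_ofNat]
      push_cast
      omega
  have h4 : (x * y).im.re % 2 = 0 := by
    rw [h2]
    rw [Zsqrtd.re_mul]
    have e1 : (sq : Zs).re = 0 := rfl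
    have e2 : (sq : Zs).im = 1 := rfl
    rw [e1, e2]
    omega
  refine ⟨⟨h3, h4⟩, h1, ?_⟩
  apply cancel_sq
  rw [← bh_spec h4, h2]

theorem norm_form {y : Z8} (hy : Wp y) : (QuadraticAlgebra.norm y : Zs) =
    y.re * y.re - 2 * (y.re * Bh y) + 2 * (Bh y * Bh y) := by
  rw [QuadraticAlgebra.norm_def, bh_spec hy.2]
  linear_combination (y.re * Bh y - Bh y * Bh y) * sq_sq

end Z45

open Z45 in
theorem Sp_mul {x y : Z8} (hx : Wp x) (hy : Wp y) (h : IsCoprime (x * y).re (x * y).im) :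
    Sp (x * y) = Sp x * Sp y * T x y * hil (Bh x) ((x * y).re * x.re * y.re) := by
  obtain ⟨hw, h1, h2⟩ := wp_mul hx hy
  rw [bh_spec hw.2, h2, h1] at h
  unfold Sp T
  rw [norm_form hy, h1, h2]
  by_cases hb : Bh x = 0
  · rw [hb] at h ⊢
    have h3 : hil 0 ((x.re * y.re - 2 * (0 * Bh y)) * x.re * y.re) = 1 := by
      unfold hil
      simp
    rw [h3, mul_one]
    have e1 : x.re * y.re - 2 * (0 * Bh y) = x.re * y.re := by ring
    have e2 : x.re * Bh y + 0 * y.re - 2 * (0 * Bh y) = x.re * Bh y := by ring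
    rw [e1, e2] at h
    rw [e1, e2]
    exact core0 hx.1 hy.1 h
  · exact core hx.1 hy.1 h hb

namespace Z45

theorem m8_congr {a a' : ℤ} (h : a % 8 = a' % 8) : m8 a = m8 a' := by
  unfold m8
  rw [h]

theorem m4_congr {z z' : Zs} {c c' : ℤ} (h : (z.re + z.im) % 4 = (z'.re + z'.im) % 4)
    (hc : c % 2 = c' % 2) : m4 z c = m4 z' c' := by
  unfold m4
  rw [h, hc]

theorem hil_congr {b b' z z' : Zs} (h1 : b.re % 8 = b'.re % 8) (h2 : b.im % 8 = b'.im % 8)
    (h3 : z.re % 8 = z'.re % 8) (h4 : z.im % 8 = z'.im % 8) : hil b z = hil b' z' := by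
  unfold hil
  have c1 : b.re % 2 = b'.re % 2 := by omega
  have c2 : b.im % 2 = b'.im % 2 := by omega
  have c3 : b.re % 4 = b'.re % 4 := by omega
  have c4 : b.im % 4 = b'.im % 4 := by omega
  have c5 : (z.re + z.im) % 4 = (z'.re + z'.im) % 4 := by omega
  rw [c1, c2, c3, c4, m8_congr h3, m4_congr (c := b.im) (c' := b'.im) c5 (by omega),
    m4_congr (c := b.re / 2) (c' := b'.re / 2) c5 (by omega),
    m4_congr (c := b.im / 2) (c' := b'.im / 2) c5 (by omega),
    m4_congr (c := b.re / 4) (c' := b'.re / 4) c5 (by omega)]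

theorem dvd_mul_sub {R : Type*} [CommRing R] {m a a' b b' : R} (h : m ∣ a - a')
    (h' : m ∣ b - b') : m ∣ a * b - a' * b' := by
  obtain ⟨s, hs⟩ := h
  obtain ⟨t, ht⟩ := h'
  exact ⟨s * b + a' * t, by linear_combination b * hs + a' * ht⟩

theorem zs_mod {a b : Zs} (h : (16 : Zs) ∣ a - b) : a.re % 16 = b.re % 16 ∧
    a.im % 16 = b.im % 16 := by
  obtain ⟨t, ht⟩ := h
  have h1 := congrArg Zsqrtd.re ht
  have h2 := congrArg Zsqrtd.im ht
  rw [Zsqrtd.re_sub, Zsqrtd.re_mul, Zsqrtd.re_ofNat, Zsqrtd.im_ofNat] at h1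
  rw [Zsqrtd.im_sub, Zsqrtd.im_mul, Zsqrtd.re_ofNat, Zsqrtd.im_ofNat] at h2
  push_cast at h1 h2
  omega

theorem z8_mod {x x' : Z8} (h : (16 : Z8) ∣ x - x') : (16 : Zs) ∣ x.re - x'.re ∧
    (16 : Zs) ∣ x.im - x'.im := by
  obtain ⟨t, ht⟩ := h
  have h1 := congrArg QuadraticAlgebra.re ht
  have h2 := congrArg QuadraticAlgebra.im ht
  have r16 : (16 : Z8).re = 16 := rfl
  have i16 : (16 : Z8).im = 0 := rfl
  refine ⟨⟨t.re, ?_⟩, ⟨t.im, ?_⟩⟩
  · rw [QuadraticAlgebra.re_sub, QuadraticAlgebra.re_mul, r16, i16] at h1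
    rw [h1]
    ring
  · rw [QuadraticAlgebra.im_sub, QuadraticAlgebra.im_mul, r16, i16] at h2
    rw [h2]
    ring

/-- the sign in the product formula -/
noncomputable def sig (x y : Z8) : ℤ :=
  hil (Bh x) ((x * y).re * x.re * y.re) * (if (x * y).re.im % 4 = 0 then 1 else -1) *
    m8 (((x * y).re.re - (x * y).im.im) ^ 2 + (x * y).im.im ^ 2)

theorem sig_pm (x y : Z8) : sig x y = 1 ∨ sig x y = -1 := by
  unfold sig
  refine mul_pm (mul_pm (hil_pm _ _) ?_) (m8_pm _)
  split_ifs <;> simp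

theorem sig_congr (x x' y y' : Z8) (h : (16 : Z8) ∣ x - x') (h' : (16 : Z8) ∣ y - y') :
    sig x y = sig x' y' := by
  have hp := dvd_mul_sub h h'
  obtain ⟨a1, a2⟩ := z8_mod h
  obtain ⟨b1, b2⟩ := z8_mod h'
  obtain ⟨c1, c2⟩ := z8_mod hp
  have d1 := dvd_mul_sub (dvd_mul_sub c1 a1) b1
  obtain ⟨e1, e2⟩ := zs_mod d1
  obtain ⟨f1, f2⟩ := zs_mod a2
  obtain ⟨g1, g2⟩ := zs_mod c1
  obtain ⟨k1, k2⟩ := zs_mod c2
  unfold sig
  have i1 : hil (Bh x) ((x * y).re * x.re * y.re) = hil (Bh x') ((x' * y').re * x'.re * y'.re) := by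
    apply hil_congr
    · unfold Bh
      dsimp only
      omega
    · unfold Bh
      dsimp only
      omega
    · omega
    · omega
  have i2 : (x * y).re.im % 4 = (x' * y').re.im % 4 := by omega
  have i3 : m8 (((x * y).re.re - (x * y).im.im) ^ 2 + (x * y).im.im ^ 2) =
      m8 (((x' * y').re.re - (x' * y').im.im) ^ 2 + (x' * y').im.im ^ 2) := by
    apply m8_congr
    have j1 : (x * y).re.re ≡ (x' * y').re.re [ZMOD 8] := by
      unfold Int.ModEq
      omega
    have j2 : (x * y).im.im ≡ (x' * y').im.im [ZMOD 8] := by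
      unfold Int.ModEq
      omega
    exact ((j1.sub j2).pow 2).add (j2.pow 2)
  rw [i1, i2, i3]

theorem alpha_odd {w : Z8} (hw : Wp w) : ((w.re.re - w.im.im) ^ 2 + w.im.im ^ 2) % 2 = 1 := by
  obtain ⟨k, hk⟩ : ∃ k, w.re.re = 2 * k + 1 := ⟨w.re.re / 2, by have := hw.1.1; omega⟩
  rcases Int.even_or_odd' w.im.im with ⟨t, ht | ht⟩
  · rw [hk, ht]; ring_nf; omega
  · rw [hk, ht]; ring_nf; omega

/-- `St` with the table -/
theorem St_eq {w : Z8} (hw : Wp w) : St w = Sp w * (if w.re.im % 4 = 0 then 1 else -1) *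
    m8 ((w.re.re - w.im.im) ^ 2 + w.im.im ^ 2) := by
  unfold St
  rw [Z33.jac_two _ (alpha_odd hw)]
  rfl

end Z45

open Z45 in
/-- the same for `St`; the sign depends on the classes modulo 16 only -/
theorem St_mul : ∃ σ : Z8 → Z8 → ℤ, (∀ x y, σ x y = 1 ∨ σ x y = -1) ∧
    (∀ x x' y y' : Z8, (16 : Z8) ∣ x - x' → (16 : Z8) ∣ y - y' → σ x y = σ x' y') ∧
    ∀ x y, Wp x → Wp y → W (x * y) → IsCoprime (x * y).re (x * y).im →
      St (x * y) = Sp x * Sp y * T x y * σ x y := by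
  refine ⟨sig, sig_pm, sig_congr, fun x y hx hy _ h => ?_⟩
  rw [St_eq (wp_mul hx hy).1, Sp_mul hx hy h]
  unfold sig
  ring

end Pool.Agent.TM32
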